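import Pool.Agent.H57.AR.Targets
import Pool.Agent.H48.SO.TAM
import Pool.Agent.H44.SO.All

/-!
# Tameness for reducts of all arities (row TAMR)
-/

set_option autoImplicit false

namespace Pool.Agent.H1.AR

open Pool.Agent.H68.BP Pool.Agent.H58.SF Pool.Agent.H53.GC Pool.Agent.H53.NR Pool.Agent.H53.GR
open Pool.Agent.H57.SO (Pal Col vt Exa Sb FBl Sbn Bh fib sigF Same Uni Can Stp)
open Pool.Agent.H44.SO (ZS JS Loc OfT LInj sig0 str0 B2 Zon Gen)
open Pool.Agent.H57.EQ (Cx)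
open Pool.Agent.H57.AR
open Function

section aux

variable {V S X : Type} {σ ρ : Sig} [LinearOrder V] {I : Type}

/-- the zone of an entry of a pair of blocks -/
private def zn : I ⊕ I → I := Sum.elim id id

/-- the entry of the pair of blocks as an entry of the family -/
private def en : I ⊕ I → I × Bool := Sum.elim (fun i => (i, false)) (fun i => (i, true))

private lemma en_fst (a : I ⊕ I) : (en a).1 = zn a := by cases a <;> rfl

private lemma en_val (z z' : I → V) (a : I ⊕ I) :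
    cond (en a).2 (z' (en a).1) (z (en a).1) = Sum.elim z z' a := by
  cases a <;> rfl

private lemma gen_lt {𝔹 : Str ρ V} {rk : I → ℕ} {z z' : I → V} (h : GenR 𝔹 rk z z')
    (a b : I ⊕ I) (hab : rk (zn a) < rk (zn b)) : Sum.elim z z' a < Sum.elim z z' b := by
  have := h.1 (en a).1 (en b).1 (en a).2 (en b).2 (by rw [en_fst, en_fst]; exact hab)
  simp only [en_val] at this
  exact this

private lemma gen_rel {𝔹 : Str ρ V} {rk : I → ℕ} {z z' : I → V} (h : GenR 𝔹 rk z z')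
    (l : Fin ρ.m) (t : Fin (ρ.ar l) → I ⊕ I) (ht : 𝔹 l (fun i => Sum.elim z z' (t i))) :
    ∀ a b, zn (t a) = zn (t b) := by
  intro a b
  have := h.2 l (fun i => en (t i)) (by simpa only [en_val] using ht) a b
  simpa only [en_fst] using this

private lemma gen_ne {𝔹 : Str ρ V} {rk : I → ℕ} (hrk : Injective rk) {z z' : I → V}
    (h : GenR 𝔹 rk z z') (a b : I ⊕ I) (hab : zn a ≠ zn b) :
    Sum.elim z z' a ≠ Sum.elim z z' b := by
  rcases lt_trichotomy (rk (zn a)) (rk (zn b)) with hh | hh | hh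
  · exact (gen_lt h a b hh).ne
  · exact absurd (hrk hh) hab
  · exact (gen_lt h b a hh).ne'

private lemma gen_fre {P : Pal S X} {𝔹 : Str ρ V} {c : V → V → S ⊕ X} (hL : Lnk P 𝔹 c)
    {rk : I → ℕ} (hrk : Injective rk) {z z' : I → V}
    (h : GenR 𝔹 rk z z') (a b : I ⊕ I) (hab : zn a ≠ zn b) :
    Fre P c (Sum.elim z z' a) (Sum.elim z z' b) := by
  refine (hL.free _ _ (gen_ne hrk h a b hab)).2 ?_
  intro l f hf
  by_contra hcon
  push Not at hcon
  obtain ⟨⟨i, hi⟩, ⟨j, hj⟩⟩ := hcon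
  have hi' : f i = false := by simpa using hi
  have hj' : f j = true := by simpa using hj
  have h1 : 𝔹 l (fun k => Sum.elim z z' (if f k then b else a)) := by
    have : (fun k => Sum.elim z z' (if f k then b else a)) =
        (fun k => if f k then Sum.elim z z' b else Sum.elim z z' a) := by
      funext k
      cases f k <;> rfl
    rw [this]
    exact hf
  have h2 := gen_rel h l (fun k => if f k then b else a) h1 i j
  simp only [hi', hj'] at h2
  exact hab h2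

private lemma gen_two {𝔹 : Str ρ V} (har : ∀ l, 1 ≤ ρ.ar l) {rk : I → ℕ} {z z' : I → V}
    (h : GenR 𝔹 rk z z') : Two 𝔹 (Sum.elim z z') := by
  intro l t ht
  let i₀ : Fin (ρ.ar l) := ⟨0, har l⟩
  refine ⟨Sum.inl (zn (t i₀)), Sum.inr (zn (t i₀)), fun i => ?_⟩
  have := gen_rel h l t ht i i₀
  rw [← this]
  cases t i with
  | inl k => left; rfl
  | inr k => right; rfl

private lemma gen_tri {P : Pal S X} {𝔹 : Str ρ V} {c : V → V → S ⊕ X} (hL : Lnk P 𝔹 c)
    {rk : I → ℕ} (hrk : Injective rk) {z z' : I → V} (h : GenR 𝔹 rk z z') :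
    NoTri P c (Sum.elim z z') := by
  intro a b d hab hbd had
  by_cases h1 : zn a = zn b
  · by_cases h2 : zn b = zn d
    · exfalso
      cases a <;> cases b <;> cases d <;> simp_all [zn]
    · exact Or.inr (Or.inl (gen_fre hL hrk h b d h2))
  · exact Or.inl (gen_fre hL hrk h a b h1)

/-- the copy in the structure of pairs -/
private lemma gen_down {P : Pal S X} {𝔹 : Str ρ V} {M : ℕ} {c : V → V → S ⊕ X}
    (hL : Lnk P 𝔹 c) (har : ∀ l, 1 ≤ ρ.ar l) {V₀ : Type} [LinearOrder V₀]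
    {c₀ : V₀ → V₀ → S ⊕ X} (hS : Shd P 𝔹 M c c₀) [Finite I]
    {rk : I → ℕ} (hrk : Injective rk) {z z' : I → V} (h : GenR 𝔹 rk z z') :
    ∃ z₀ z₀' : I → V₀, LikP 𝔹 c c₀ z z' z₀ z₀' ∧ Gen P c₀ rk z₀ z₀' ∧
      (∀ i, vt P c₀ (z₀ i) = vt P c (z i)) ∧ (∀ i, vt P c₀ (z₀' i) = vt P c (z' i)) ∧
      ∀ i, z₀ i = z₀' i ↔ z i = z' i := by
  obtain ⟨x, hx⟩ := hS.down (I ⊕ I) (Sum.elim z z') (gen_tri hL hrk h)
  have hvt : ∀ a, vt P c₀ (x a) = vt P c (Sum.elim z z' a) := by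
    intro a
    simp only [vt, (hx a a).2]
  have hgen : ∀ a b : I ⊕ I, rk (zn a) < rk (zn b) →
      x a < x b ∧ c₀ (x a) (x b) = Sum.inr (P.fr (vt P c₀ (x a)) (vt P c₀ (x b))) := by
    intro a b hab
    refine ⟨(hx a b).1.2 (gen_lt h a b hab), ?_⟩
    rw [(hx a b).2, hvt, hvt]
    exact gen_fre hL hrk h a b (fun e => by rw [e] at hab; exact lt_irrefl _ hab)
  have hel : Sum.elim (fun i => x (Sum.inl i)) (fun i => x (Sum.inr i)) = x := by
    funext a
    cases a <;> rfl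
  refine ⟨fun i => x (Sum.inl i), fun i => x (Sum.inr i), ⟨gen_two har h, ?_⟩,
    ⟨?_, ?_, ?_, ?_⟩, fun i => hvt (Sum.inl i), fun i => hvt (Sum.inr i), fun i => ?_⟩
  · intro i j
    rw [hel]
    exact hx i j
  · intro i j hij
    exact hgen (Sum.inl i) (Sum.inl j) hij
  · intro i j hij
    exact hgen (Sum.inl i) (Sum.inr j) hij
  · intro i j hij
    exact hgen (Sum.inr i) (Sum.inl j) hij
  · intro i j hij
    exact hgen (Sum.inr i) (Sum.inr j) hij
  · have h1 := (hx (Sum.inl i) (Sum.inr i)).1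
    have h2 := (hx (Sum.inr i) (Sum.inl i)).1
    simp only [Sum.elim_inl, Sum.elim_inr] at h1 h2
    constructor
    · intro e
      replace e : x (Sum.inl i) = x (Sum.inr i) := e
      have e1 : ¬ z i < z' i := fun hh => absurd (h1.2 hh) (by rw [e]; exact lt_irrefl _)
      have e2 : ¬ z' i < z i := fun hh => absurd (h2.2 hh) (by rw [e]; exact lt_irrefl _)
      exact le_antisymm (not_lt.1 e2) (not_lt.1 e1)
    · intro e
      have e1 : ¬ x (Sum.inl i) < x (Sum.inr i) :=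
        fun hh => absurd (h1.1 hh) (by rw [e]; exact lt_irrefl _)
      have e2 : ¬ x (Sum.inr i) < x (Sum.inl i) :=
        fun hh => absurd (h2.1 hh) (by rw [e]; exact lt_irrefl _)
      exact le_antisymm (not_lt.1 e2) (not_lt.1 e1)

end aux

/-- Row TAMR. -/
theorem pf_TAMR (hSHV : T_SHV) (hSHB : T_SHB) : T_TAMR := by
  intro σ ρ V S X _ P 𝔸 𝔹 M c hs I _ rk hrk H hH z z' w w' hz hw ht ht' he hHz
  have hL := hs.lnk
  have har : ∀ l, 1 ≤ ρ.ar l := fun l => (hs.base.ar l).1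
  obtain ⟨V₀, instV, c₀, hS⟩ := hSHV σ ρ V S X P 𝔸 𝔹 M c hs
  obtain ⟨H₀, hCan, hSp⟩ := hSHB σ ρ V S X P 𝔸 𝔹 M c hs V₀ c₀ hS I H hH
  obtain ⟨z₀, z₀', hlz, hgz, hvz, hvz', hez⟩ := gen_down hL har hS hrk hz
  obtain ⟨w₀, w₀', hlw, hgw, hvw, hvw', hew⟩ := gen_down hL har hS hrk hw
  have hT := Pool.Agent.H48.SO.TAM.pf_TAM Pool.Agent.H44.SO.pf_CFG sig0 V₀ S X P (str0 V₀) M c₀
    hS.stp I rk hrk H₀ hCan z₀ z₀' w₀ w₀' hgz hgw
    (fun i => by rw [hvw, hvz, ht]) (fun i => by rw [hvw', hvz', ht'])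
    (fun i => by rw [hew, hez, he])
    (by
      obtain ⟨s, hs'⟩ := hHz
      refine ⟨s, ?_⟩
      rw [hSp z z' z₀ z₀' hlz, shv, if_pos ⟨s, hs'⟩, hs'])
  obtain ⟨s, hs'⟩ := hT
  rw [hSp w w' w₀ w₀' hlw, shv] at hs'
  by_contra hcon
  rw [if_neg hcon] at hs'
  exact absurd hs' (by simp)

end Pool.Agent.H1.AR
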